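import Mathlib
import Pool.Agent.U522.HJ.Bound

set_option autoImplicit false

/-!
# The restricted density polynomial Hales-Jewett statement above density `1/2 - c 2^(-d/2)`

For every `d ≥ 2` the restricted density polynomial Hales-Jewett statement holds for all densities
above `1/2 - 1/(21 · 2^(d/2) + 29)`. (The bound of the starting files is `1/2 - 1/(2^d + 2)`.)

Let `F P = ± 1` tell whether a pattern `P`, planted in a random set, gives a member of the family
`S`, which is not good. Let `D` be the density of `S` and `δ = 1 - 2 D`: this is the probability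
that both ends of an edge `P`, `P ∪ γ^d` are outside `S`; otherwise `F` changes its sign along
the edge.

*Upper bound.* Let `T` be the operator which plants a cube at a random place. The theorem of
`Pool.Agent.TH7.DH` (`T ≥ -(1 - 2^(1-d))`, and the version for nested cubes) is proved here for
kernels with values in a Hilbert space. Applied to `T^m F` it gives by induction
`‖T^m F‖² ≤ (1 - 2^(2-d))^m + δ`; the sides of the cubes are chosen one after the other.

*Lower bound.* `‖T^m F‖²` is at least the correlation of two patterns which consist of `m` disjoint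
cubes each. We show that it is at least `1 - c √m δ`, not only `1 - c m δ`: in the cube `{0,1}^m`
of the subsets of `m` planted cubes the defects, edges with both ends outside `S`, are the boundary
of a set; each of them meets at least `m + 1` defects at its ends, so a set of at most twice the
proportion `δ` of the vertices separates the two sides, and a one-sided isoperimetric inequality
for the discrete cube shows that one of the sides has size at most `c √m δ`. So antipodal points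
are on the same side with probability `1 - c √m δ`.

With `m = 2^(d-2)` the two bounds give `δ ≥ c 2^(-d/2)`.
-/

namespace Pool.Agent.Results.MP_90b327_co.SquareRootGap

open Finset Filter Topology Pool.Agent.TH7.DH Pool.Agent.R814.PHJ Pool.Agent.U522.HJ

/-- `cube d γ` is `γ^d`, the set of all `d`-tuples with entries in `γ`. -/
def cube {N : ℕ} (d : ℕ) (γ : Finset (Fin N)) : Finset (Fin d → Fin N) :=
  Fintype.piFinset (fun _ : Fin d => γ)

/-- A family `S` of subsets of `[N]^d` is good if there are `A ∈ S` and a nonempty `γ ⊆ [N]` with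
`A ∩ γ^d = ∅` and `A ∪ γ^d ∈ S`. -/
def Good {N d : ℕ} (S : Finset (Finset (Fin d → Fin N))) : Prop :=
  ∃ A ∈ S, ∃ γ : Finset (Fin N), γ.Nonempty ∧ Disjoint A (cube d γ) ∧ A ∪ cube d γ ∈ S

/-- In dimension `d` all families of density above `δ` are good, for large `N`. -/
def HoldsAbove (d : ℕ) (δ : ℝ) : Prop :=
  ∀ δ' : ℝ, δ < δ' → ∃ N₀ : ℕ, ∀ N : ℕ, N₀ ≤ N → ∀ S : Finset (Finset (Fin d → Fin N)),
    δ' * (2 : ℝ) ^ (N ^ d) < S.card → Good S

lemma not_good_ow {N d : ℕ} {S : Finset (Finset (Fin d → Fin N))} (hS : ¬ Good S) {ι : Type}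
    [Fintype ι] (φ : ι ↪ Fin N) (A : Finset (Fin d → Fin N)) (P : (Fin d → ι) → Prop)
    (γ : Finset ι) (hγ : γ.Nonempty) (hP : ∀ c : Fin d → ι, (∀ t, c t ∈ γ) → ¬ P c) :
    ¬ (ow φ P A ∈ S ∧ ow φ (fun c => P c ∨ ∀ t, c t ∈ γ) A ∈ S) := by
  classical
  rintro ⟨h0, h1⟩
  refine hS ⟨_, h0, γ.map φ, hγ.map, ?_, ?_⟩
  · rw [Finset.disjoint_left]
    intro c hc hc'
    rw [mem_ow] at hc
    rw [cube, Fintype.mem_piFinset] at hc'
    have : ∀ t, ∃ x, x ∈ γ ∧ φ x = c t := fun t => by
      have := hc' t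
      rw [Finset.mem_map] at this
      exact this
    choose e he he' using this
    rcases hc with ⟨e₁, he₁, hP₁⟩ | ⟨hne, -⟩
    · have h2 : e₁ = e := funext fun t => φ.injective ((congrFun he₁ t).trans (he' t).symm)
      rw [h2] at hP₁
      exact hP e he hP₁
    · exact hne ⟨e, funext he'⟩
  · have h2 : ow φ P A ∪ cube d (γ.map φ) = ow φ (fun c => P c ∨ ∀ t, c t ∈ γ) A := by
      ext c
      have h3 : c ∈ cube d (γ.map φ) ↔ ∃ e : Fin d → ι, (fun t => φ (e t)) = c ∧ ∀ t, e t ∈ γ := by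
        rw [cube, Fintype.mem_piFinset]
        constructor
        · intro hc
          have : ∀ t, ∃ x, x ∈ γ ∧ φ x = c t := fun t => by
            have := hc t
            rw [Finset.mem_map] at this
            exact this
          choose e he he' using this
          exact ⟨e, funext he', he⟩
        · rintro ⟨e, rfl, he⟩ t
          exact mem_map_of_mem _ (he t)
      rw [mem_union, mem_ow, mem_ow, h3]
      by_cases hc : ∃ e : Fin d → ι, (fun t => φ (e t)) = c
      · simp only [hc, not_true, false_and, or_false]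
        constructor
        · rintro (⟨e, he, h⟩ | ⟨e, he, h⟩)
          · exact ⟨e, he, Or.inl h⟩
          · exact ⟨e, he, Or.inr h⟩
        · rintro ⟨e, he, h | h⟩
          · exact Or.inl ⟨e, he, h⟩
          · exact Or.inr ⟨e, he, h⟩
      · have h4 : ∀ R : (Fin d → ι) → Prop, ¬ ∃ e : Fin d → ι, (fun t => φ (e t)) = c ∧ R e :=
          fun R ⟨e, he, _⟩ => hc ⟨e, he⟩
        simp only [hc, h4 P, h4 (fun c => P c ∨ ∀ t, c t ∈ γ), h4 (fun e => ∀ t, e t ∈ γ),
          not_false_iff, true_and, false_or, or_false]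
    rw [h2]
    exact h1

/-- bad families for infinitely many `N` give a limit object -/
lemma extract {d : ℕ} (hd : 1 ≤ d) {δ : ℝ}
    (h : ¬ ∃ N₀ : ℕ, ∀ N : ℕ, N₀ ≤ N → ∀ S : Finset (Finset (Fin d → Fin N)),
      δ * (2 : ℝ) ^ (N ^ d) < S.card → Good S) :
    ∃ (V : Ultrafilter ℕ) (hV : (V : Filter ℕ) ≤ atTop)
      (S : (N : ℕ) → Finset (Finset (Fin d → Fin N))), Adm S ∧ δ ≤ (raw V hV S).v := by
  classical
  push Not at h
  set B : Set ℕ := {N | ∃ S : Finset (Finset (Fin d → Fin N)),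
    δ * (2 : ℝ) ^ (N ^ d) < S.card ∧ ¬ Good S} with hB
  have hfreq : ∃ᶠ N in (atTop : Filter ℕ), N ∈ B := by
    rw [frequently_atTop]
    intro N₀
    obtain ⟨N, hN, S, hS, hg⟩ := h N₀
    exact ⟨N, hN, S, hS, hg⟩
  have hne : NeBot ((atTop : Filter ℕ) ⊓ 𝓟 B) := frequently_mem_iff_neBot.1 hfreq
  set V : Ultrafilter ℕ := Ultrafilter.of ((atTop : Filter ℕ) ⊓ 𝓟 B) with hVdef
  have hVle : (V : Filter ℕ) ≤ (atTop : Filter ℕ) ⊓ 𝓟 B := Ultrafilter.of_le _
  have hV1 : (V : Filter ℕ) ≤ atTop := hVle.trans inf_le_left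
  have hV2 : B ∈ (V : Filter ℕ) := hVle (mem_inf_of_right (mem_principal_self B))
  have hch : ∀ N : ℕ, ∃ S : Finset (Finset (Fin d → Fin N)), ¬ Good S ∧
      (N ∈ B → δ * (2 : ℝ) ^ (N ^ d) < S.card) := by
    intro N
    by_cases hN : N ∈ B
    · obtain ⟨S, hS, hg⟩ := hN
      exact ⟨S, hg, fun _ => hS⟩
    · refine ⟨∅, ?_, fun h => (hN h).elim⟩
      rintro ⟨A, hA, -⟩
      exact absurd hA (notMem_empty _)
  choose S hSg hSd using hch
  refine ⟨V, hV1, S, fun N ι _ φ A P γ hγ hP => not_good_ow (hSg N) φ A P γ hγ hP, ?_⟩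
  refine ge_of_tendsto ((raw V hV1 S).tendsto Empty (fun _ => True) (fun _ => True)) ?_
  filter_upwards [hV2] with N hN
  have h1 : KN N ((raw V hV1 S).h₁ N) ((raw V hV1 S).h₂ N) Empty (fun _ => True)
      (fun _ => True) = av (fun A => ind (S N) A) := by
    unfold KN
    have h2 : ∀ φ : Empty ↪ Fin N, av (fun A => (raw V hV1 S).h₁ N (ow φ (fun _ => True) A)
        * (raw V hV1 S).h₂ N (ow φ (fun _ => True) A)) = av (fun A => ind (S N) A) := by
      intro φ
      congr 1
      funext A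
      rw [ow_empty hd]
      exact ind_mul_self (S N) A
    simp only [h2]
    have : Nonempty (Empty ↪ Fin N) := ⟨⟨Empty.elim, fun x => x.elim⟩⟩
    rw [av_const]
  rw [h1, av_ind]
  have h3 : ((Fintype.card (Finset (Fin d → Fin N)) : ℕ) : ℝ) = 2 ^ (N ^ d) := by
    rw [Fintype.card_finset]
    simp
  rw [h3, le_div_iff₀ (by positivity)]
  exact (hSd N hN).le

/-- the general bound -/
lemma general {d : ℕ} (hd : 2 ≤ d) {m : ℕ} (hm : 1 ≤ m) :
    HoldsAbove d (1 / 2 - (1 - (1 - 1 / 2 ^ (d - 2)) ^ m) / (18 + 464 / 25 * √(2 * m))) := by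
  intro δ hδ
  by_contra hcon
  obtain ⟨V, hV, S, hS, hD⟩ := extract (by omega) hcon
  have hb := Pool.Agent.U522.HJ.bound V hV S hS hd hm
  have e1 : (2 : ℝ) * (1 / 2) ^ (d - 1) = 1 / 2 ^ (d - 2) := by
    obtain ⟨e, rfl⟩ : ∃ e, d = e + 2 := ⟨d - 2, by omega⟩
    have h1 : e + 2 - 1 = e + 1 := by omega
    have h2 : e + 2 - 2 = e := by omega
    rw [h1, h2, pow_succ, one_div_pow]
    ring
  rw [e1] at hb
  set θ : ℝ := (1 - 1 / 2 ^ (d - 2)) ^ m with hθ
  have hs : 0 ≤ √(2 * (m : ℝ)) := Real.sqrt_nonneg _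
  have hpos : 0 < 18 + 464 / 25 * √(2 * (m : ℝ)) := by positivity
  have h3 : (1 - θ) / (18 + 464 / 25 * √(2 * (m : ℝ))) * (18 + 464 / 25 * √(2 * (m : ℝ)))
      = 1 - θ := div_mul_cancel₀ _ hpos.ne'
  set z : ℝ := (1 - θ) / (18 + 464 / 25 * √(2 * (m : ℝ))) with hz
  have h4 : 1 / 2 - z < (raw V hV S).v := lt_of_lt_of_le hδ hD
  have h5 : (9 + 232 / 25 * √(2 * (m : ℝ))) * (1 - 2 * (raw V hV S).v)
      < (9 + 232 / 25 * √(2 * (m : ℝ))) * (2 * z) :=
    mul_lt_mul_of_pos_left (by linarith) (by positivity)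
  nlinarith

/-- Let `d ≥ 2`. (1) The restricted density polynomial Hales-Jewett statement holds in dimension
`d` for all densities above `1/2 - 1/(21 · 2^(d/2) + 29)`. (2) More generally it holds, for every
`m ≥ 1`, for all densities above
`1/2 - (1 - (1 - 2^(2-d))^m) / (18 + (464/25) (2m)^(1/2))`. -/
theorem result : ∀ d : ℕ, 2 ≤ d →
    HoldsAbove d (1 / 2 - 1 / (21 * √(2 ^ d) + 29)) ∧
    ∀ m : ℕ, 1 ≤ m →
      HoldsAbove d (1 / 2 - (1 - (1 - 1 / 2 ^ (d - 2)) ^ m) / (18 + 464 / 25 * √(2 * m))) := by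
  intro d hd
  refine ⟨?_, fun m hm => general hd hm⟩
  intro δ hδ
  refine general (m := 2 ^ (d - 2)) hd Nat.one_le_two_pow δ (lt_of_le_of_lt ?_ hδ)
  have hm : (0 : ℝ) < 2 ^ (d - 2) := by positivity
  have h1 : (1 - 1 / (2 : ℝ) ^ (d - 2)) ^ (2 ^ (d - 2)) ≤ Real.exp (-1) := by
    have h := Real.one_sub_div_pow_le_exp_neg (n := 2 ^ (d - 2)) (t := 1) (by
      push_cast
      exact one_le_pow₀ (by norm_num))
    push_cast at h
    exact h
  have h2 := Real.exp_neg_one_lt_d9
  set q : ℝ := √(2 ^ d) with hq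
  have hq0 : 0 ≤ q := Real.sqrt_nonneg _
  have hq2 : q ^ 2 = 2 ^ d := Real.sq_sqrt (by positivity)
  have h3 : √(2 * ((2 ^ (d - 2) : ℕ) : ℝ)) ≤ 7072 / 10000 * q := by
    refine Real.sqrt_le_iff.2 ⟨by positivity, ?_⟩
    rw [mul_pow, hq2]
    push_cast
    obtain ⟨e, rfl⟩ : ∃ e, d = e + 2 := ⟨d - 2, by omega⟩
    have h5 : e + 2 - 2 = e := by omega
    rw [h5, pow_add]
    have : (0 : ℝ) < 2 ^ e := by positivity
    nlinarith
  have h4 : 1 / (21 * q + 29) ≤ (1 - (1 - 1 / (2 : ℝ) ^ (d - 2)) ^ (2 ^ (d - 2)))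
      / (18 + 464 / 25 * √(2 * ((2 ^ (d - 2) : ℕ) : ℝ))) := by
    rw [div_le_div_iff₀ (by positivity) (by positivity)]
    nlinarith
  linarith

end Pool.Agent.Results.MP_90b327_co.SquareRootGap
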