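import Pool.Agent.U286.TR.Mat

/-!
# The restricted density polynomial Hales-Jewett conjecture for tree tensor networks

In every dimension the conjecture holds for the families of subsets of `[N]^d` which are supports of
functions computed by tree tensor networks of bounded bond dimension over an arbitrary field in
which each cell is read at a bounded number of leaves: at the leaves of a binary tree of any shape
and size cells are read, in any arrangement, and at the inner nodes messages of length `w` are
combined by bilinear maps (so there may be cancellations in the field). It also holds for all
families which contain most of such a family, and with bond dimension, number of reads and inverse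
density tending to infinity. Programs of matrices, in particular nondeterministic branching programs
of bounded width, are networks on caterpillars; nondeterministic tree automata are networks over the
rational numbers which count the accepting computations.

Proof. For paths (programs) a Ramsey theorem for the order of the reads gives diagonal blocks which
are read in boundedly many intervals. In a tree the leaves in an interval need not be cut off by
few edges. Here Ramsey's theorem is applied to the shapes of the triples of leaves (which two of the
three are together): on a homogeneous set of coordinates compare the leaves `x` which read the cells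
of one block, with a fixed pattern and number, and the leaves `z` which read cells of the later
blocks with two anchors, leaves with the pattern and number of `x` which read cells with
coordinates in the gaps before and after the block. Each of the three shapes gives one node of the
tree which separates all `x` from all `z`. So boundedly many nodes separate the leaves of a block
from the leaves of the other blocks, and the flattening of the function at the block has bounded rank.
The rest is the theorem of the library for functions of small flattening rank, which uses the
polynomial Hales-Jewett theorem of Bergelson and Leibman (proved in the library).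
-/

set_option autoImplicit false

namespace Pool.Agent.Results.MP_90b327_co.TreeNetworks

open Finset Pool.Agent.U286.TR

/-- The iterated exponential `2 ^ 2 ^ ... ^ x` with `C` twos. -/
def tower : ℕ → ℕ → ℕ
  | 0, x => x
  | C + 1, x => 2 ^ tower C x

theorem tower_eq (C x : ℕ) : tower C x = RC.tow C x := by
  induction C with
  | zero => rfl
  | succ C ih => simp only [tower, RC.tow, ih]

/-- For every `d ≥ 1`:

(1) There is `C` such that for all `w` and `p` there are `η > 0`, `lam < 1` and `a` with: if
`N ≥ tower C (a (n + 1))`, the family `F` of subsets of `[N]^d` is decided by a tree tensor network
over a field, of bond dimension at most `w`, in which each cell is read at most at `p` leaves, and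
`F` has more than `8 lam^n 2^(N^d)` elements, then every family `S` which contains all elements of
`F` except for at most `η |F|` is good: there are `A ∈ S` and a nonempty `γ ⊆ [N]` with
`A ∩ γ^d = ∅` and `A ∪ γ^d ∈ S`.

(2) There is a function `f` which tends to infinity such that for all `N` every family `S` with
`|S| ≥ 2^(N^d) / f(N)` which is the union of `f(N)` families decided by tree tensor networks of bond
dimension at most `f(N)`, over any fields, in which each cell is read at most at `f(N)` leaves is good.

(3) Each family decided by a product of `w × w` matrices over a field in which each cell occurs at
most `p` times (`p ≥ 1`, `N ≥ 1`) is decided by a tree tensor network of bond dimension at most `w²`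
in which each cell is read at most at `p` leaves. -/
theorem result (d : ℕ) (hd : 1 ≤ d) :
    (∃ C : ℕ, ∀ w p : ℕ, ∃ (η lam : ℝ) (a : ℕ), 0 < η ∧ 0 < lam ∧ lam < 1 ∧
      ∀ (N n : ℕ) (F S : Finset (Finset (Fin d → Fin N))),
        tower C (a * (n + 1)) ≤ N → TreeDecided d N w p F → 8 * lam ^ n * 2 ^ (N ^ d) < #F →
          (#(F \ S) : ℝ) ≤ η * #F → Good S) ∧
    (∃ f : ℕ → ℕ, Filter.Tendsto f Filter.atTop Filter.atTop ∧
      ∀ (N : ℕ) (G : Fin (f N) → Finset (Finset (Fin d → Fin N)))
        (S : Finset (Finset (Fin d → Fin N))), (∀ i, TreeDecided d N (f N) (f N) (G i)) →
        (∀ A, A ∈ S ↔ ∃ i, A ∈ G i) → 2 ^ (N ^ d) ≤ f N * #S → Good S) ∧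
    (∀ (N w p : ℕ) (F : Finset (Finset (Fin d → Fin N))), 1 ≤ N → 1 ≤ p →
      ProductDecided d N w p F → TreeDecided d N (w ^ 2) p F) := by
  refine ⟨?_, growing d hd, fun N w p F hN hp h => treeDecided_of_productDecided hN hp h⟩
  obtain ⟨C, h⟩ := core d hd
  refine ⟨C, fun w p => ?_⟩
  obtain ⟨η, lam, a, h1, h2, h3, h4⟩ := h w p
  exact ⟨η, lam, a, h1, h2, h3, fun N n F S hN => h4 N n F S (by rwa [← tower_eq])⟩

end Pool.Agent.Results.MP_90b327_co.TreeNetworks
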